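import Pool.Agent.W26.WsLower
import Pool.Agent.W26.WsHaar

/-! Wirsching's principle for the estimating series, for all 3-adic units, with a uniform `n₀`. -/

set_option autoImplicit false

namespace Pool.Agent.Results.MP_0f3fac_nt.Wirsching

open Pool.Agent.W26.Ws

/-- There are an absolute constant `c₁ > 0` and an absolute `n₀` such that for all `n ≥ n₀` the
estimating series at every unit of the 3-adic integers, and at every positive integer prime to 3,
exceeds `c₁` times its mean value over the 3-adic units. -/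
theorem result : ∃ c₁ : ℝ, 0 < c₁ ∧ ∃ n₀ : ℕ, ∀ n : ℕ, n₀ ≤ n →
    (∀ a : ℤ_[3]ˣ, ENNReal.ofReal c₁ * sbar n < s n (a : ℤ_[3])) ∧
    (∀ a : ℕ, 0 < a → ¬ 3 ∣ a → ENNReal.ofReal c₁ * sbar n < sNat n a) := by
  obtain ⟨c, hc, n1, h1⟩ := lower_padic
  obtain ⟨c', hc', n2, h2⟩ := lower_nat
  set d : ℝ := min c c' with hd
  have hd0 : 0 < d := lt_min hc hc'
  refine ⟨d / 150, by positivity, max n1 n2, fun n hn => ?_⟩
  have key : ENNReal.ofReal (d / 150) * sbar n < ENNReal.ofReal (d * 2 ^ n) := by
    calc ENNReal.ofReal (d / 150) * sbar n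
        ≤ ENNReal.ofReal (d / 150) * ENNReal.ofReal (75 * 2 ^ n) := mul_le_mul_right (sbar_le n) _
      _ = ENNReal.ofReal (d / 150 * (75 * 2 ^ n)) := (ENNReal.ofReal_mul (by positivity)).symm
      _ < ENNReal.ofReal (d * 2 ^ n) := by
          rw [ENNReal.ofReal_lt_ofReal_iff (by positivity)]
          have : 0 < d * 2 ^ n := by positivity
          nlinarith
  have e1 : ENNReal.ofReal (d * 2 ^ n) ≤ ENNReal.ofReal (c * 2 ^ n) :=
    ENNReal.ofReal_le_ofReal (mul_le_mul_of_nonneg_right (min_le_left _ _) (by positivity))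
  have e2 : ENNReal.ofReal (d * 2 ^ n) ≤ ENNReal.ofReal (c' * 2 ^ n) :=
    ENNReal.ofReal_le_ofReal (mul_le_mul_of_nonneg_right (min_le_right _ _) (by positivity))
  constructor
  · intro a
    exact key.trans_le (e1.trans (h1 n ((le_max_left _ _).trans hn) a a.isUnit))
  · intro a ha0 ha
    exact key.trans_le (e2.trans (h2 n ((le_max_right _ _).trans hn) a ha0 ha))

end Pool.Agent.Results.MP_0f3fac_nt.Wirsching
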